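import Pool.Agent.U140.FM.Def
set_option autoImplicit false
set_option linter.unusedSectionVars false

/-!
# Project FM, job D: from the functional to the model
-/

namespace Pool.Agent.U503.FM

open Pool.Agent.U140.FM Finset MeasureTheory ProbabilityTheory
open scoped BigOperators

section general

variable {V M : Type} [DecidableEq V] [Fintype M] [Inhabited M]
variable (step : V → M → V) (r : V → ℝ)

/-- position after `k` moves -/
def pos (x : V) (μ : ℕ → M) : ℕ → V
  | 0 => x
  | k + 1 => step (pos x μ k) (μ k)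

theorem pos_shift (x : V) (μ : ℕ → M) (k : ℕ) :
    pos step (step x (μ 0)) (fun i => μ (i + 1)) k = pos step x μ (k + 1) := by
  induction k with
  | zero => rfl
  | succ k ih => rw [pos, ih]; rfl

theorem path_eq (K : ℕ) (x : V) (μ : ℕ → M) :
    path step x (List.ofFn (fun i : Fin K => μ i)) = (List.range K).map (fun k => pos step x μ (k + 1)) := by
  induction K generalizing x μ with
  | zero => simp [path]
  | succ K ih =>
    rw [List.ofFn_succ, path, List.range_succ_eq_map, List.map_cons, List.map_map]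
    have h := ih (step x (μ 0)) (fun i => μ (i + 1))
    simp only [Fin.val_zero, Fin.val_succ]
    rw [h]
    congr 1
    apply List.map_congr_left
    intro k _
    exact pos_shift step x μ (k + 1)

theorem gain_eq (K : ℕ) (x : V) (μ : ℕ → M) :
    gain step r x (fun i : Fin K => μ i) = ∑ k ∈ range K, r (pos step x μ (k + 1)) := by
  unfold gain
  rw [path_eq, List.map_map]
  induction K with
  | zero => simp
  | succ K ih => rw [List.range_succ, List.map_append, List.sum_append, ih, Finset.sum_range_succ]; simp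

theorem mem_vis (K : ℕ) (x y : V) (μ : ℕ → M) :
    y ∈ vis step x (fun i : Fin K => μ i) ↔ ∃ k < K, pos step x μ (k + 1) = y := by
  unfold vis
  rw [path_eq]
  simp

variable {K : ℕ}

theorem reach_aux (Z : Finset V) (w w' : V → Fin K → M) (h : ∀ z ∈ Z, w z = w' z) (x z : V) (hx : x ∈ Z)
    (hz : Relation.ReflTransGen (edge step Z w) x z) : z ∈ Z ∧ Relation.ReflTransGen (edge step Z w') x z := by
  induction hz with
  | refl => exact ⟨hx, Relation.ReflTransGen.refl⟩
  | tail _ hbc ih =>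
    refine ⟨hbc.1, ih.2.tail ⟨hbc.1, ?_⟩⟩
    rw [← h _ ih.1]
    exact hbc.2

theorem mem_reach (Z : Finset V) (w : V → Fin K → M) (X : Finset V) (z : V) :
    z ∈ reach step Z w X ↔ z ∈ Z ∧ ∃ x ∈ X, x ∈ Z ∧ Relation.ReflTransGen (edge step Z w) x z := by
  simp only [reach, mem_filter]

theorem reach_congr (Z : Finset V) (w w' : V → Fin K → M) (h : ∀ z ∈ Z, w z = w' z) (X : Finset V) :
    reach step Z w X = reach step Z w' X := by
  ext z
  rw [mem_reach, mem_reach]
  constructor
  · rintro ⟨hz, x, hx, hxZ, hr⟩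
    exact ⟨hz, x, hx, hxZ, (reach_aux step Z w w' h x z hxZ hr).2⟩
  · rintro ⟨hz, x, hx, hxZ, hr⟩
    exact ⟨hz, x, hx, hxZ, (reach_aux step Z w' w (fun z hz => (h z hz).symm) x z hxZ hr).2⟩

theorem base_congr (Z : Finset V) (w w' : V → Fin K → M) (h : ∀ z ∈ Z, w z = w' z) (X : Finset V) :
    base step r Z w X = base step r Z w' X := by
  unfold base
  rw [reach_congr step Z w w' h X]
  refine Finset.sum_congr rfl fun z hz => ?_
  have hzZ : z ∈ Z := ((mem_reach step Z w' X z).1 hz).1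
  rw [h z hzZ]

end general

/-- resampling of one coordinate -/
theorem resample {α β : Type} [Fintype α] [DecidableEq α] [Fintype β] [Nonempty β] (b : α)
    (h : β → (α → β) → ℝ) (hh : ∀ u w u', h u (Function.update w b u') = h u w) :
    avg (fun w : α → β => avg fun u => h u w) = avg fun w : α → β => h (w b) w := by
  unfold avg
  have hb : (Fintype.card β : ℝ) ≠ 0 := by
    exact_mod_cast Fintype.card_ne_zero
  have ha : (Fintype.card (α → β) : ℝ) ≠ 0 := by
    exact_mod_cast Fintype.card_ne_zero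
  let e : (α → β) × β ≃ (α → β) × β :=
    { toFun := fun p => (Function.update p.1 b p.2, p.1 b)
      invFun := fun p => (Function.update p.1 b p.2, p.1 b)
      left_inv := by
        rintro ⟨w, u⟩
        simp
      right_inv := by
        rintro ⟨w, u⟩
        simp }
  have key : ∑ w : α → β, ∑ u : β, h u w = (Fintype.card β : ℝ) * ∑ w : α → β, h (w b) w := by
    have e1 : ∑ w : α → β, ∑ u : β, h u w = ∑ p : (α → β) × β, h ((e p).1 b) (e p).1 := by
      rw [Fintype.sum_prod_type]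
      refine Finset.sum_congr rfl fun w _ => Finset.sum_congr rfl fun u _ => ?_
      simp only [e, Equiv.coe_fn_mk, Function.update_self]
      exact (hh u w u).symm
    rw [e1, Equiv.sum_comp e (fun p : (α → β) × β => h (p.1 b) p.1), Fintype.sum_prod_type]
    simp [Finset.mul_sum]
  rw [← Finset.sum_div, key]
  field_simp

open Classical in
/-- the sites of `B` in `Z` -/
noncomputable def Zf (B : Finset Vt) (Z : Set Vt) : Finset Vt := B.filter (· ∈ Z)

theorem mem_Zf (B : Finset Vt) (Z : Set Vt) (z : Vt) : z ∈ Zf B Z ↔ z ∈ B ∧ z ∈ Z := by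
  simp only [Zf, mem_filter]

/-- the functional for given moves -/
noncomputable def q (n K : ℕ) (w : ball n → Fin K → Mv) : ℝ :=
  gain (stepT n) rt [] (U140.FM.ext (ball n) w []) +
    base (stepT n) rt (Zf (ball n) {v | v ≠ []}) (U140.FM.ext (ball n) w) (vis (stepT n) [] (U140.FM.ext (ball n) w []))

theorem mem_ball (n : ℕ) (v : Vt) : v ∈ ball n ↔ v.length ≤ n := by
  unfold ball
  simp

theorem FT_eq (n K : ℕ) : FT n K [[]] {v | v ≠ []} = avg fun w : ball n → Fin K → Mv => q n K w := by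
  classical
  have h0 : ([] : Vt) ∈ ball n := by simp [mem_ball]
  have e1 : FT n K [[]] {v | v ≠ []} = avg fun w : ball n → Fin K → Mv =>
      avg fun u : Fin K → Mv => gain (stepT n) rt [] u +
        base (stepT n) rt (Zf (ball n) {v | v ≠ []}) (U140.FM.ext (ball n) w) (vis (stepT n) [] u) := by
    unfold FT F
    congr 1
  rw [e1]
  have e2 := resample (α := ball n) (β := Fin K → Mv) ⟨[], h0⟩
    (fun u w => gain (stepT n) rt [] u +
        base (stepT n) rt (Zf (ball n) {v | v ≠ []}) (U140.FM.ext (ball n) w) (vis (stepT n) [] u)) (by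
      intro u w u'
      congr 1
      apply base_congr
      intro z hz
      rw [mem_Zf] at hz
      have hz1 : z ≠ [] := hz.2
      unfold U140.FM.ext
      rw [dif_pos hz.1, dif_pos hz.1]
      rw [Function.update_of_ne]
      intro h
      exact hz1 (congrArg Subtype.val h))
  rw [e2]
  congr 1
  funext w
  unfold q
  have e3 : U140.FM.ext (ball n) w [] = w ⟨[], h0⟩ := by
    unfold U140.FM.ext
    rw [dif_pos h0]
  rw [e3]

theorem gain_nonneg {K : ℕ} (n : ℕ) (x : Vt) (u : Fin K → Mv) : 0 ≤ gain (stepT n) rt x u := by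
  unfold gain
  apply List.sum_nonneg
  intro y hy
  rw [List.mem_map] at hy
  obtain ⟨z, _, rfl⟩ := hy
  unfold rt
  split_ifs <;> norm_num

theorem q_nonneg (n K : ℕ) (w : ball n → Fin K → Mv) : 0 ≤ q n K w := by
  unfold q base
  exact add_nonneg (gain_nonneg _ _ _) (Finset.sum_nonneg fun z _ => gain_nonneg _ _ _)

/-! ### the deterministic part -/

section det

variable (ξ : Vt → ℕ → Mv) (S : Vt → ℕ → Vt)

theorem len_le (hS0 : ∀ v, S v 0 = v)
    (hS1 : ∀ v k, S v (k + 1) = if S v k = [] then [(ξ v k).1] else if (ξ v k).2 = 0 then (S v k).tail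
      else (ξ v k).1 :: S v k) (v : Vt) (k : ℕ) : (S v k).length ≤ v.length + k := by
  induction k with
  | zero => rw [hS0]; simp
  | succ k ih =>
    rw [hS1]
    split_ifs with h1 h2
    · simp only [List.length_singleton]; omega
    · simp only [List.length_tail]; omega
    · simp only [List.length_cons]; omega

theorem pos_eq (hS0 : ∀ v, S v 0 = v)
    (hS1 : ∀ v k, S v (k + 1) = if S v k = [] then [(ξ v k).1] else if (ξ v k).2 = 0 then (S v k).tail
      else (ξ v k).1 :: S v k) (n : ℕ) (v : Vt) (k : ℕ) (h : v.length + k ≤ n) :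
    pos (stepT n) v (ξ v) k = S v k := by
  induction k with
  | zero => rw [hS0]; rfl
  | succ k ih =>
    rw [pos, ih (by omega), hS1]
    have hl := len_le ξ S hS0 hS1 v k
    unfold stepT
    rw [if_neg (by omega)]

theorem ext_eq (n K : ℕ) (v : Vt) (hv : v.length ≤ n) :
    U140.FM.ext (ball n) (fun b (k : Fin K) => ξ b k) v = fun k : Fin K => ξ v k := by
  unfold U140.FM.ext
  rw [dif_pos ((mem_ball n v).2 hv)]

theorem reached (hS0 : ∀ v, S v 0 = v)
    (hS1 : ∀ v k, S v (k + 1) = if S v k = [] then [(ξ v k).1] else if (ξ v k).2 = 0 then (S v k).tail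
      else (ξ v k).1 :: S v k) (v : Vt) (hv : Relation.ReflTransGen (fun a b => ∃ k, S a k = b) [] v) :
    ∃ N0 : ℕ, ∀ N, N0 ≤ N → v = [] ∨ v ∈ reach (stepT N) (Zf (ball N) {v | v ≠ []})
      (U140.FM.ext (ball N) (fun b (k : Fin N) => ξ b k))
      (vis (stepT N) [] (U140.FM.ext (ball N) (fun b (k : Fin N) => ξ b k) [])) := by
  induction hv with
  | refl => exact ⟨0, fun N _ => Or.inl rfl⟩
  | @tail a b _ hab ih =>
    obtain ⟨N0, hN0⟩ := ih
    obtain ⟨k, hk⟩ := hab
    refine ⟨max N0 (a.length + k + 1), fun N hN => ?_⟩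
    have h1 : N0 ≤ N := le_trans (le_max_left _ _) hN
    have h2 : a.length + k + 1 ≤ N := le_trans (le_max_right _ _) hN
    have hbl : b.length ≤ N := by
      rw [← hk]
      have := len_le ξ S hS0 hS1 a k
      omega
    by_cases hb : b = []
    · exact Or.inl hb
    right
    have hbZ : b ∈ Zf (ball N) {v | v ≠ []} := (mem_Zf _ _ _).2 ⟨(mem_ball N b).2 hbl, hb⟩
    rcases Nat.eq_zero_or_pos k with h0 | h0
    · subst h0
      rw [hS0] at hk
      subst hk
      rcases hN0 N h1 with h | h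
      · exact absurd h hb
      · exact h
    · have hvis : b ∈ vis (stepT N) a (U140.FM.ext (ball N) (fun b (k : Fin N) => ξ b k) a) := by
        rw [ext_eq ξ N N a (by omega), mem_vis]
        refine ⟨k - 1, by omega, ?_⟩
        have e : k - 1 + 1 = k := by omega
        rw [e, pos_eq ξ S hS0 hS1 N a k (by omega), hk]
      rcases hN0 N h1 with h | h
      · subst h
        rw [mem_reach]
        exact ⟨hbZ, b, hvis, hbZ, Relation.ReflTransGen.refl⟩
      · rw [mem_reach] at h ⊢
        obtain ⟨haZ, x, hx, hxZ, hr⟩ := h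
        exact ⟨hbZ, x, hx, hxZ, hr.tail ⟨hbZ, hvis⟩⟩

theorem gain_card (N : ℕ) (v : Vt) (hv : v.length ≤ N) :
    gain (stepT N) rt v (U140.FM.ext (ball N) (fun b (k : Fin N) => ξ b k) v) =
      (((range N).filter fun k => pos (stepT N) v (ξ v) (k + 1) = []).card : ℝ) := by
  rw [ext_eq ξ N N v hv, gain_eq]
  simp only [rt]
  rw [Finset.sum_ite]
  simp

theorem lower (hS0 : ∀ v, S v 0 = v)
    (hS1 : ∀ v k, S v (k + 1) = if S v k = [] then [(ξ v k).1] else if (ξ v k).2 = 0 then (S v k).tail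
      else (ξ v k).1 :: S v k) (A : Finset (Vt × ℕ))
    (hA : ∀ p ∈ A, Relation.ReflTransGen (fun a b => ∃ k, S a k = b) [] p.1 ∧ S p.1 p.2 = [] ∧ p.2 ≠ 0) :
    ∃ N0 : ℕ, ∀ N, N0 ≤ N → (A.card : ℝ) ≤ q N N (fun b (k : Fin N) => ξ b k) := by
  classical
  have h1 : ∀ p : Vt × ℕ, ∃ N0 : ℕ, ∀ N, N0 ≤ N → p ∈ A → p.1 = [] ∨
      p.1 ∈ reach (stepT N) (Zf (ball N) {v | v ≠ []})
      (U140.FM.ext (ball N) (fun b (k : Fin N) => ξ b k))
      (vis (stepT N) [] (U140.FM.ext (ball N) (fun b (k : Fin N) => ξ b k) [])) := by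
    intro p
    by_cases hp : p ∈ A
    · obtain ⟨N0, h⟩ := reached ξ S hS0 hS1 p.1 (hA p hp).1
      exact ⟨N0, fun N hN _ => h N hN⟩
    · exact ⟨0, fun N _ h => absurd h hp⟩
  choose N1 hN1 using h1
  refine ⟨A.sup N1 + A.sup (fun p => p.1.length + p.2 + 1), fun N hN => ?_⟩
  have ha : ∀ p ∈ A, N1 p ≤ N := fun p hp => by
    have := Finset.le_sup (f := N1) hp
    omega
  have hb : ∀ p ∈ A, p.1.length + p.2 + 1 ≤ N := fun p hp => by
    exact le_trans (Finset.le_sup (f := fun p : Vt × ℕ => p.1.length + p.2 + 1) hp) (by omega)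
  set W := U140.FM.ext (ball N) (fun b (k : Fin N) => ξ b k) with hW
  set R := reach (stepT N) (Zf (ball N) {v | v ≠ []}) W (vis (stepT N) [] (W [])) with hR
  have hnR : ([] : Vt) ∉ R := by
    intro h
    rw [hR, mem_reach, mem_Zf] at h
    exact h.1.2 rfl
  have hq : q N N (fun b (k : Fin N) => ξ b k) = ∑ z ∈ insert [] R, gain (stepT N) rt z (W z) := by
    rw [Finset.sum_insert hnR]
    rfl
  rw [hq]
  have hsub : A.image Prod.fst ⊆ insert [] R := by
    intro v hv
    rw [mem_image] at hv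
    obtain ⟨p, hp, rfl⟩ := hv
    rcases hN1 p N (ha p hp) hp with h | h
    · rw [h]; exact mem_insert_self _ _
    · exact mem_insert_of_mem h
  refine le_trans ?_ (Finset.sum_le_sum_of_subset_of_nonneg hsub fun z _ _ => gain_nonneg N z (W z))
  rw [Finset.card_eq_sum_card_image Prod.fst A]
  push_cast
  refine Finset.sum_le_sum fun v hv => ?_
  rw [mem_image] at hv
  obtain ⟨p, hp, rfl⟩ := hv
  have hpl : p.1.length ≤ N := by
    have := hb p hp
    omega
  rw [hW, gain_card ξ N p.1 hpl]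
  norm_cast
  refine Finset.card_le_card_of_injOn (fun p' : Vt × ℕ => p'.2 - 1) ?_ ?_
  · intro p' hp'
    simp only [coe_filter, Set.mem_ofPred_eq] at hp'
    obtain ⟨hp'A, hp'1⟩ := hp'
    have h2 := hb p' hp'A
    have h3 := (hA p' hp'A).2
    simp only [coe_filter, Set.mem_ofPred_eq, mem_range]
    have e : p'.2 - 1 + 1 = p'.2 := by have := h3.2; omega
    rw [e]
    refine ⟨by omega, ?_⟩
    rw [pos_eq ξ S hS0 hS1 N p.1 p'.2 (by rw [← hp'1]; omega), ← hp'1]
    exact h3.1
  · intro x hx y hy hxy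
    simp only [coe_filter, Set.mem_ofPred_eq] at hx hy
    simp only at hxy
    have hx2 := (hA x hx.1).2.2
    have hy2 := (hA y hy.1).2.2
    have : x.2 = y.2 := by omega
    exact Prod.ext (hx.2.trans hy.2.symm) this

end det

/-! ### the law of the moves -/

section meas

variable {Ω : Type} [MeasurableSpace Ω] (P : Measure Ω) [IsProbabilityMeasure P] (ξ : Vt → ℕ → Ω → Mv)

/-- the moves in the ball -/
def Y (n K : ℕ) (ω : Ω) : ball n → Fin K → Mv := fun b k => ξ b k ω

theorem Y_meas (hξ : ∀ v k, Measurable (ξ v k)) (n K : ℕ) : Measurable (Y ξ n K) :=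
  measurable_pi_lambda _ fun b => measurable_pi_lambda _ fun k => hξ b k

theorem law (hind : iIndepFun (fun p : List (Fin 4) × ℕ => ξ p.1 p.2) P)
    (hu : ∀ v k (c : Fin 4 × Fin 5), P (ξ v k ⁻¹' {c}) = 1 / 20) (n K : ℕ) (w : ball n → Fin K → Mv) :
    P (Y ξ n K ⁻¹' {w}) = (1 / 20) ^ ((ball n).card * K) := by
  classical
  let s : Vt × ℕ → Set Mv := fun p => if h : p.1 ∈ ball n ∧ p.2 < K then {w ⟨p.1, h.1⟩ ⟨p.2, h.2⟩} else Set.univ
  have hs : ∀ p, p ∈ ball n ×ˢ range K → ∃ c, s p = {c} := by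
    intro p hp
    rw [mem_product, mem_range] at hp
    exact ⟨_, dif_pos hp⟩
  have h := hind.measure_inter_preimage_eq_mul (ball n ×ˢ range K) (sets := s) (fun i _ => Set.toFinite _ |>.measurableSet)
  have e1 : Y ξ n K ⁻¹' {w} = ⋂ i ∈ ball n ×ˢ range K, (fun p : Vt × ℕ => ξ p.1 p.2) i ⁻¹' s i := by
    ext ω
    simp only [Set.mem_preimage, Set.mem_singleton_iff, Set.mem_iInter]
    constructor
    · intro hY p hp
      rw [mem_product, mem_range] at hp
      simp only [s, dif_pos hp]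
      rw [Set.mem_singleton_iff, ← hY]
      rfl
    · intro hY
      funext b k
      have h1 := hY (b, k) (by rw [mem_product, mem_range]; exact ⟨b.2, k.2⟩)
      have h2 : ((b : Vt), (k : ℕ)).1 ∈ ball n ∧ ((b : Vt), (k : ℕ)).2 < K := ⟨b.2, k.2⟩
      simp only [s, dif_pos h2] at h1
      exact h1
  rw [e1, h]
  rw [Finset.prod_congr rfl (g := fun _ => (1 / 20 : ENNReal)) (fun p hp => by
    obtain ⟨c, hc⟩ := hs p hp
    rw [hc]
    exact hu p.1 p.2 c)]
  rw [Finset.prod_const, card_product, card_range]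

theorem card_W (n K : ℕ) : Fintype.card (ball n → Fin K → Mv) = 20 ^ ((ball n).card * K) := by
  rw [Fintype.card_fun, Fintype.card_fun, Fintype.card_coe, Fintype.card_fin, Fintype.card_prod, Fintype.card_fin,
    Fintype.card_fin, ← pow_mul, Nat.mul_comm K]

theorem integral_q (hξ : ∀ v k, Measurable (ξ v k)) (hind : iIndepFun (fun p : List (Fin 4) × ℕ => ξ p.1 p.2) P)
    (hu : ∀ v k (c : Fin 4 × Fin 5), P (ξ v k ⁻¹' {c}) = 1 / 20) (n K : ℕ) :
    ∫⁻ ω, ENNReal.ofReal (q n K (Y ξ n K ω)) ∂P = ENNReal.ofReal (FT n K [[]] {v | v ≠ []}) := by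
  have h1 : ∫⁻ w, ENNReal.ofReal (q n K w) ∂(P.map (Y ξ n K)) = ∫⁻ ω, ENNReal.ofReal (q n K (Y ξ n K ω)) ∂P :=
    lintegral_map (measurable_of_finite _) (Y_meas ξ hξ n K)
  rw [← h1, lintegral_fintype]
  have h2 : ∀ w : ball n → Fin K → Mv, (P.map (Y ξ n K)) {w} = (1 / 20) ^ ((ball n).card * K) := by
    intro w
    rw [Measure.map_apply (Y_meas ξ hξ n K) (measurableSet_singleton w)]
    exact law P ξ hind hu n K w
  simp only [h2]
  rw [← Finset.sum_mul, ← ENNReal.ofReal_sum_of_nonneg (fun w _ => q_nonneg n K w), FT_eq, avg, card_W]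
  have e : ((1 : ENNReal) / 20) ^ ((ball n).card * K) = ENNReal.ofReal (1 / 20 ^ ((ball n).card * K)) := by
    rw [← one_div_pow, ENNReal.ofReal_pow (by norm_num), ENNReal.ofReal_div_of_pos (by norm_num)]
    simp
  rw [e, ← ENNReal.ofReal_mul (Finset.sum_nonneg fun w _ => q_nonneg n K w)]
  congr 1
  push_cast
  ring

end meas

theorem model (C : ℝ) (hC : ∀ n K : ℕ, FT n K [[]] {v | v ≠ []} ≤ C) :
    ∀ (Ω : Type) [MeasurableSpace Ω] (P : Measure Ω) [IsProbabilityMeasure P]
      (ξ : List (Fin 4) → ℕ → Ω → Fin 4 × Fin 5),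
      (∀ v k, Measurable (ξ v k)) →
      iIndepFun (fun p : List (Fin 4) × ℕ => ξ p.1 p.2) P →
      (∀ v k (c : Fin 4 × Fin 5), P (ξ v k ⁻¹' {c}) = 1 / 20) →
      ∀ (S : List (Fin 4) → ℕ → Ω → List (Fin 4)),
      (∀ v ω, S v 0 ω = v) →
      (∀ v k ω, S v (k + 1) ω =
        if S v k ω = [] then [(ξ v k ω).1]
        else if (ξ v k ω).2 = 0 then (S v k ω).tail
        else (ξ v k ω).1 :: S v k ω) →
      ∀ᵐ ω ∂P, Set.Finite
        {p : List (Fin 4) × ℕ |
          (∀ A : Set (List (Fin 4)), [] ∈ A →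
              (∀ v ∈ A, ∀ k, S v k ω ∈ A) → p.1 ∈ A) ∧
          S p.1 p.2 ω = []} := by
  intro Ω _ P _ ξ hξ hind hu S hS0 hS1
  have hQm : ∀ N : ℕ, Measurable fun ω => ENNReal.ofReal (q N N (Y ξ N N ω)) := fun N =>
    (measurable_of_finite fun w : ball N → Fin N → Mv => ENNReal.ofReal (q N N w)).comp (Y_meas ξ hξ N N)
  have hfat := lintegral_liminf_le (μ := P) (u := Filter.atTop) hQm
  have hle : Filter.liminf (fun N => ∫⁻ ω, ENNReal.ofReal (q N N (Y ξ N N ω)) ∂P) Filter.atTop ≤ ENNReal.ofReal C := by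
    have h0 : ∀ N : ℕ, ∫⁻ ω, ENNReal.ofReal (q N N (Y ξ N N ω)) ∂P ≤ ENNReal.ofReal C := by
      intro N
      rw [integral_q P ξ hξ hind hu N N]
      exact ENNReal.ofReal_le_ofReal (hC N N)
    refine le_trans (Filter.liminf_le_liminf (Filter.Eventually.of_forall h0)) ?_
    simp
  have hae := ae_lt_top (Measurable.liminf hQm) (ne_of_lt (lt_of_le_of_lt (hfat.trans hle) ENNReal.ofReal_lt_top))
  filter_upwards [hae] with ω hω
  by_contra hinf
  obtain ⟨m, hm⟩ := ENNReal.exists_nat_gt hω.ne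
  set T : Set (List (Fin 4) × ℕ) := {p : List (Fin 4) × ℕ |
          (∀ A : Set (List (Fin 4)), [] ∈ A →
              (∀ v ∈ A, ∀ k, S v k ω ∈ A) → p.1 ∈ A) ∧
          S p.1 p.2 ω = []} with hT
  have hinf' : (T \ {([], 0)}).Infinite := Set.Infinite.sdiff hinf (Set.finite_singleton _)
  obtain ⟨A, hAT, hAm⟩ := hinf'.exists_subset_card_eq m
  obtain ⟨N0, hN0⟩ := lower (fun v k => ξ v k ω) (fun v k => S v k ω) (fun v => hS0 v ω) (fun v k => hS1 v k ω) A (by
    intro p hp
    have hpT := hAT hp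
    obtain ⟨⟨hp1, hp2⟩, hp3⟩ := hpT
    refine ⟨?_, hp2, ?_⟩
    · exact hp1 {v | Relation.ReflTransGen (fun a b => ∃ k, S a k ω = b) [] v} Relation.ReflTransGen.refl
        (fun v hv k => Relation.ReflTransGen.tail hv ⟨k, rfl⟩)
    · intro h0
      apply hp3
      rw [h0, hS0] at hp2
      exact Prod.ext hp2 h0)
  have hge : (m : ENNReal) ≤ Filter.liminf (fun N => ENNReal.ofReal (q N N (Y ξ N N ω))) Filter.atTop := by
    refine Filter.le_liminf_of_le (by isBoundedDefault) ?_
    filter_upwards [Filter.eventually_ge_atTop N0] with N hN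
    have h := hN0 N hN
    rw [hAm] at h
    rw [← ENNReal.ofReal_natCast]
    exact ENNReal.ofReal_le_ofReal h
  exact absurd hm (not_lt.2 hge)

end Pool.Agent.U503.FM
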